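import Pool.Agent.Helper35_WH.Stmt3

/-! Module SINGLE: reduction of a connected chord system to a single disc. -/

set_option autoImplicit false

namespace Pool.Agent.Helper35_WH

namespace SINGLE

theorem parity {E : Type} (g : E → Bool) (T : Finset E) (τ : E → E) (hττ : ∀ x, τ (τ x) = x)
    (hne : ∀ x, τ x ≠ x) (hT : ∀ x ∈ T, τ x ∈ T) (hg : ∀ x ∈ T, g (τ x) = g x) :
    ∑ x ∈ T, (if g x then (1 : ZMod 2) else 0) = 0 := by
  refine Finset.sum_involution (fun x _ => τ x) ?_ ?_ ?_ ?_
  · intro x hx
    rw [hg x hx]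
    split_ifs
    · decide
    · decide
  · intro x _ _
    exact hne x
  · intro x hx
    exact hT x hx
  · intro x _
    exact hττ x

variable {R : Rim}

/-- the invariants of the reduction -/
structure Good (A A' : Chords R) : Prop where
  or' : ∀ e, A'.A e = A.A e ∨ A'.A e = R.φ e
  inv : ∀ g : R.E → Bool, (∀ e, g (R.σ e) = g e) → (∀ e, g (A'.A e) = g e) →
    ∀ e, g (A.A e) = g e
  sol : ∀ (M : Type) [Group M] (b a : R.E → M), R.Bd b → (Sol A b a ↔ ∃ r : R.E → M,
      (∀ e, r (R.σ e) = r e) ∧ (∀ e, A'.A e = R.φ e → r (R.φ e) = r e * b e) ∧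
      (∀ e, a e = (r e)⁻¹ * r (A.A e)) ∧
      ∀ e, A'.A e ≠ R.φ e → r e * b e * (r (R.φ e))⁻¹ =
        r (A.A e) * b (A.A e) * (r (R.φ (A.A e)))⁻¹)

theorem good_self (A : Chords R) : Good A A where
  or' e := Or.inl rfl
  inv g _ h := h
  sol M _ b a hb := by
    constructor
    · rintro ⟨h1, h2, h3, r, h4, h5⟩
      refine ⟨r, h4, ?_, ?_, ?_⟩
      · intro e he
        rw [← he, h5, h2 e he]
      · intro e
        rw [h5, ← mul_assoc, inv_mul_cancel, one_mul]
      · intro e he
        have h6 : a (R.φ e) = (r (R.φ e))⁻¹ * r (R.φ (A.A e)) := by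
          rw [← A.comm, h5, ← mul_assoc, inv_mul_cancel, one_mul]
        have h7 := h3 e he
        rw [h6] at h7
        have h8 : r (A.A e) = r e * a e := h5 e
        rw [h8, h7]
        group
    · rintro ⟨r, h1, h2, h3, h4⟩
      refine ⟨?_, ?_, ?_, r, h1, ?_⟩
      · intro e
        rw [h3, h3, A.AA]
        group
      · intro e he
        rw [h3, he, h2 e he]
        group
      · intro e he
        have h5 := h4 e he
        rw [h3, h3 (R.φ e), A.comm]
        have h6 : (r (A.A e))⁻¹ * (r e * b e * (r (R.φ e))⁻¹) =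
            b (A.A e) * (r (R.φ (A.A e)))⁻¹ := by
          rw [h5]; group
        have h7 : b (A.A e) = (r (A.A e))⁻¹ * (r e * b e * (r (R.φ e))⁻¹) * r (R.φ (A.A e)) := by
          rw [h6]; group
        rw [h7]
        group
      · intro e
        rw [h3]
        group

/-- the four corners of the band at `e₁` -/
def S4 (A' : Chords R) (e₁ e : R.E) : Prop :=
  e = e₁ ∨ e = R.φ e₁ ∨ e = A'.A e₁ ∨ e = R.φ (A'.A e₁)

instance (A' : Chords R) (e₁ : R.E) : DecidablePred (S4 A' e₁) := fun e => by
  unfold S4; infer_instance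

theorem S4_φ {A' : Chords R} {e₁ e : R.E} (h : S4 A' e₁ e) : S4 A' e₁ (R.φ e) := by
  rcases h with rfl | rfl | rfl | rfl
  · exact Or.inr (Or.inl rfl)
  · exact Or.inl (R.φφ _)
  · exact Or.inr (Or.inr (Or.inr rfl))
  · exact Or.inr (Or.inr (Or.inl (R.φφ _)))

theorem S4_A {A' : Chords R} {e₁ e : R.E} (h : S4 A' e₁ e) : S4 A' e₁ (A'.A e) := by
  rcases h with rfl | rfl | rfl | rfl
  · exact Or.inr (Or.inr (Or.inl rfl))
  · exact Or.inr (Or.inr (Or.inr (A'.comm _)))
  · exact Or.inl (A'.AA _)
  · exact Or.inr (Or.inl (by rw [A'.comm, A'.AA]))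

theorem S4_φ_iff {A' : Chords R} {e₁ e : R.E} : S4 A' e₁ (R.φ e) ↔ S4 A' e₁ e :=
  ⟨fun h => by have := S4_φ h; rwa [R.φφ] at this, S4_φ⟩

theorem S4_A_iff {A' : Chords R} {e₁ e : R.E} : S4 A' e₁ (A'.A e) ↔ S4 A' e₁ e :=
  ⟨fun h => by have := S4_A h; rwa [A'.AA] at this, S4_A⟩

/-- delete the band at `e₁` -/
def del (A' : Chords R) (e₁ : R.E) : Chords R where
  A e := if S4 A' e₁ e then R.φ e else A'.A e
  AA e := by
    by_cases h : S4 A' e₁ e
    · simp only [h, if_true, S4_φ h, R.φφ]
    · have h' : ¬ S4 A' e₁ (A'.A e) := fun h' => h (S4_A_iff.1 h')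
      simp only [h, if_false, h', A'.AA]
  A_ne e := by
    split_ifs
    · exact R.φ_ne e
    · exact A'.A_ne e
  comm e := by
    by_cases h : S4 A' e₁ e
    · simp only [h, if_true, S4_φ h]
    · have h' : ¬ S4 A' e₁ (R.φ e) := fun h' => h (S4_φ_iff.1 h')
      simp only [h, if_false, h', A'.comm]

theorem del_pos {A' : Chords R} {e₁ e : R.E} (h : S4 A' e₁ e) : (del A' e₁).A e = R.φ e :=
  if_pos h

theorem del_neg {A' : Chords R} {e₁ e : R.E} (h : ¬ S4 A' e₁ e) : (del A' e₁).A e = A'.A e :=
  if_neg h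

theorem good_del {A A' : Chords R} (h : Good A A') {e₁ : R.E} {f : R.E → Bool}
    (hσ : ∀ e, f (R.σ e) = f e) (hA' : ∀ e, f (A'.A e) = f e) (he : f (R.φ e₁) ≠ f e₁) :
    Good A (del A' e₁) := by
  have hA : ∀ e, f (A.A e) = f e := h.inv f hσ hA'
  have hne₁ : A'.A e₁ ≠ R.φ e₁ := fun h1 => he (by rw [← h1, hA'])
  have hA₁ : A'.A e₁ = A.A e₁ := (h.or' e₁).resolve_right hne₁
  have hφA : f (R.φ (A'.A e₁)) = f (R.φ e₁) := by rw [← A'.comm, hA']
  -- on the four corners `A' = A`
  have hS : ∀ e, S4 A' e₁ e → A'.A e = A.A e := by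
    intro e hS
    refine (h.or' e).resolve_right fun h1 => ?_
    have h2 : f (R.φ e) = f e := by rw [← h1, hA']
    rcases hS with rfl | rfl | rfl | rfl
    · exact he h2
    · rw [R.φφ] at h2
      exact he h2.symm
    · rw [hφA, hA'] at h2
      exact he h2
    · rw [R.φφ, hφA, hA'] at h2
      exact he h2.symm
  refine ⟨?_, ?_, ?_⟩
  · intro e
    by_cases hSe : S4 A' e₁ e
    · exact Or.inr (del_pos hSe)
    · rw [del_neg hSe]
      exact h.or' e
  · intro g hg hgA
    refine h.inv g hg ?_
    have hg1 : g (A'.A e₁) = g e₁ := by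
      set T : Finset R.E := Finset.univ.filter fun x => f x = f e₁ with hT
      have h1 : ∑ x ∈ T, (if g x then (1 : ZMod 2) else 0) = 0 := by
        refine parity g T R.σ R.σσ R.σ_ne ?_ (fun x _ => hg x)
        intro x hx
        rw [hT, Finset.mem_filter] at hx ⊢
        exact ⟨Finset.mem_univ _, by rw [hσ]; exact hx.2⟩
      have hmem1 : e₁ ∈ T := by
        rw [hT, Finset.mem_filter]
        exact ⟨Finset.mem_univ _, rfl⟩
      have hmem2 : A'.A e₁ ∈ T.erase e₁ := by
        rw [Finset.mem_erase, hT, Finset.mem_filter]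
        exact ⟨A'.A_ne e₁, Finset.mem_univ _, hA' e₁⟩
      have h2 : ∑ x ∈ (T.erase e₁).erase (A'.A e₁), (if g x then (1 : ZMod 2) else 0) = 0 := by
        have hnS : ∀ x ∈ (T.erase e₁).erase (A'.A e₁), ¬ S4 A' e₁ x := by
          intro x hx hSx
          rw [Finset.mem_erase, Finset.mem_erase, hT, Finset.mem_filter] at hx
          rcases hSx with rfl | rfl | rfl | rfl
          · exact hx.2.1 rfl
          · exact he hx.2.2.2
          · exact hx.1 rfl
          · rw [hφA] at hx
            exact he hx.2.2.2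
        refine parity g _ A'.A A'.AA A'.A_ne ?_ ?_
        · intro x hx
          have hn := hnS x hx
          rw [Finset.mem_erase, Finset.mem_erase, hT, Finset.mem_filter] at hx ⊢
          refine ⟨?_, ?_, Finset.mem_univ _, by rw [hA']; exact hx.2.2.2⟩
          · intro h3
            apply hx.2.1
            rw [← A'.AA x, h3, A'.AA]
          · intro h3
            apply hx.1
            rw [← h3, A'.AA]
        · intro x hx
          rw [← del_neg (hnS x hx), hgA]
      have h3 := Finset.add_sum_erase T (fun x => if g x then (1 : ZMod 2) else 0) hmem1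
      have h4 := Finset.add_sum_erase (T.erase e₁) (fun x => if g x then (1 : ZMod 2) else 0) hmem2
      rw [h2, add_zero] at h4
      rw [← h4, h1] at h3
      revert h3
      cases g e₁ <;> cases g (A'.A e₁) <;> decide
    intro e
    by_cases hSe : S4 A' e₁ e
    · have hφ : ∀ x, S4 A' e₁ x → g (R.φ x) = g x := fun x hx => by
        rw [← del_pos hx, hgA]
      have hs1 : S4 A' e₁ e₁ := Or.inl rfl
      have hs2 : S4 A' e₁ (A'.A e₁) := S4_A hs1
      rcases hSe with rfl | rfl | rfl | rfl
      · exact hg1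
      · rw [A'.comm, hφ _ hs2, hφ _ hs1, hg1]
      · rw [A'.AA, hg1]
      · rw [A'.comm, A'.AA, hφ _ hs1, hφ _ hs2, hg1]
    · rw [← del_neg hSe, hgA]
  · intro M _ b a hb
    rw [h.sol M b a hb]
    constructor
    · rintro ⟨r, h1, h2, h3, h4⟩
      set κ : M := r e₁ * b e₁ * (r (R.φ e₁))⁻¹ with hκ
      have hκ' : κ = r (A'.A e₁) * b (A'.A e₁) * (r (R.φ (A'.A e₁)))⁻¹ := by
        rw [hκ, h4 e₁ hne₁, hA₁]
      let q : R.E → M := fun x => if f x = f e₁ then 1 else κ
      have hq : ∀ x y, f x = f y → q x = q y := by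
        intro x y hxy
        simp only [q, hxy]
      have hq1 : q e₁ = 1 := if_pos rfl
      have hq2 : q (R.φ e₁) = κ := if_neg he
      have hq3 : q (A'.A e₁) = 1 := by rw [hq _ e₁ (hA' _), hq1]
      have hq4 : q (R.φ (A'.A e₁)) = κ := by rw [hq _ _ hφA, hq2]
      refine ⟨fun x => q x * r x, ?_, ?_, ?_, ?_⟩
      · intro e
        simp only [h1, hq _ _ (hσ e)]
      · intro e hd
        by_cases hSe : S4 A' e₁ e
        · rcases hSe with rfl | rfl | rfl | rfl
          · simp only [hq1, hq2, hκ]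
            group
          · simp only [R.φφ, hq1, hq2, hκ, hb e₁]
            group
          · simp only [hq3, hq4, hκ']
            group
          · simp only [R.φφ, hq3, hq4, hκ', hb (A'.A e₁)]
            group
        · rw [del_neg hSe] at hd
          have h5 : f (R.φ e) = f e := by rw [← hd, hA']
          simp only [hq _ _ h5, h2 e hd, mul_assoc]
      · intro e
        simp only [hq _ _ (hA e), h3 e]
        group
      · intro e hd
        have hSe : ¬ S4 A' e₁ e := fun hS => hd (del_pos hS)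
        rw [del_neg hSe] at hd
        have h5 := h4 e hd
        have h6 : f (R.φ (A.A e)) = f (R.φ e) := by rw [← A.comm, hA]
        simp only [hq _ _ (hA e), hq _ _ h6, mul_inv_rev]
        have h7 : q e * r e * b e * ((r (R.φ e))⁻¹ * (q (R.φ e))⁻¹) =
            q e * (r e * b e * (r (R.φ e))⁻¹) * (q (R.φ e))⁻¹ := by group
        rw [h7, h5]
        group
    · rintro ⟨r, h1, h2, h3, h4⟩
      refine ⟨r, h1, ?_, h3, ?_⟩
      · intro e hd
        refine h2 e ?_
        by_cases hSe : S4 A' e₁ e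
        · exact del_pos hSe
        · rw [del_neg hSe, hd]
      · intro e hd
        by_cases hSe : S4 A' e₁ e
        · have h5 : S4 A' e₁ (A.A e) := by
            rw [← hS e hSe]
            exact S4_A hSe
          rw [h2 e (del_pos hSe), h2 (A.A e) (del_pos h5)]
          group
        · exact h4 e (by rw [del_neg hSe]; exact hd)

theorem main (A : Chords R) (hA : A.Con) : ∀ (n : ℕ) (A' : Chords R), Good A A' →
    (Finset.univ.filter fun e => A'.A e ≠ R.φ e).card ≤ n →
    ∃ A'' : Chords R, Good A A'' ∧ A''.Trans := by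
  intro n
  induction n with
  | zero =>
    intro A' h hn
    refine ⟨A', h, ?_⟩
    intro f hσ hf
    refine hA f ⟨hσ, ?_⟩ (h.inv f hσ hf)
    intro e
    have : A'.A e = R.φ e := by
      by_contra hne
      have : e ∈ (Finset.univ.filter fun e => A'.A e ≠ R.φ e) := by simp [hne]
      rw [Finset.card_eq_zero.1 (Nat.le_zero.1 hn)] at this
      exact absurd this (Finset.notMem_empty e)
    rw [← this, hf]
  | succ n ih =>
    intro A' h hn
    by_cases hT : A'.Trans
    · exact ⟨A', h, hT⟩
    · unfold Chords.Trans at hT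
      push Not at hT
      obtain ⟨f, hσ, hf, e, e', hee⟩ := hT
      have : ∃ e₁, f (R.φ e₁) ≠ f e₁ := by
        by_contra hcon
        push Not at hcon
        exact hee (hA f ⟨hσ, hcon⟩ (h.inv f hσ hf) e e')
      obtain ⟨e₁, he₁⟩ := this
      refine ih (del A' e₁) (good_del h hσ hf he₁) ?_
      have hlt : (Finset.univ.filter fun e => (del A' e₁).A e ≠ R.φ e).card <
          (Finset.univ.filter fun e => A'.A e ≠ R.φ e).card := by
        refine Finset.card_lt_card ?_
        rw [Finset.ssubset_iff_of_subset]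
        · refine ⟨e₁, ?_, ?_⟩
          · rw [Finset.mem_filter]
            exact ⟨Finset.mem_univ _, fun h1 => he₁ (by rw [← h1, hf])⟩
          · rw [Finset.mem_filter]
            rintro ⟨-, h1⟩
            exact h1 (del_pos (Or.inl rfl))
        · intro x hx
          rw [Finset.mem_filter] at hx ⊢
          refine ⟨Finset.mem_univ _, fun h1 => hx.2 ?_⟩
          by_cases hSx : S4 A' e₁ x
          · exact del_pos hSx
          · rw [del_neg hSx, h1]
      omega

end SINGLE

theorem singlePoly : SinglePolyStatement := by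
  intro R A hA
  obtain ⟨A', h, hT⟩ := SINGLE.main A hA _ A (SINGLE.good_self A) le_rfl
  exact ⟨A', h.or', hT, fun M _ b a hb => h.sol M b a hb⟩

end Pool.Agent.Helper35_WH
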