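import Pool.Agent.Helper35_WH.Stmt3

/-! Module TYPE: the numbers of solutions determine the canonical word. -/

set_option autoImplicit false

namespace Pool.Agent.Helper35_WH

open FreeGroup

namespace TYPE

theorem hom_flatMap {α β M : Type} [Monoid M] (F : FreeGroup α →* M) (l : List β)
    (g : β → List (α × Bool)) :
    F (mk (l.flatMap g)) = (l.map fun j => F (mk (g j))).prod := by
  induction l with
  | nil => simp [← one_eq_mk]
  | cons a l ih => rw [List.flatMap_cons, ← mul_mk, _root_.map_mul, ih, List.map_cons, List.prod_cons]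

/-- power with a sign -/
def sg {M : Type} [Group M] (c : M) (s : Bool) : M := if s then c else c⁻¹

theorem lift_bd {L : Type} {β : ℕ} {M : Type} [CommGroup M] (x : L → M) (c : Fin β → M) (t : L)
    (j : Fin β) (s : Bool) :
    FreeGroup.lift (Sum.elim x c) (mk (Piece.bd t j s).word) = sg (c j) s := by
  cases s
  · simp [Piece.word, sg, FreeGroup.lift_mk]
  · simp [Piece.word, sg, FreeGroup.lift_mk]

theorem lift_com {L B : Type} {M : Type} [CommGroup M] (x : L → M) (c : B → M) (a b : L) :
    FreeGroup.lift (Sum.elim x c) (mk (Piece.com (B := B) a b).word) = 1 := by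
  simp only [Piece.word, FreeGroup.lift_mk, List.map_cons, List.map_nil, cond_true, cond_false,
    Sum.elim_inl, List.prod_cons, List.prod_nil, mul_one]
  rw [mul_left_comm (x b)]
  simp

theorem lift_sq {L B : Type} {M : Type} [CommGroup M] (x : L → M) (c : B → M) (a : L) :
    FreeGroup.lift (Sum.elim x c) (mk (Piece.sq (B := B) a).word) = x a * x a := by
  simp [Piece.word, FreeGroup.lift_mk]

theorem lift_orWord {β h : ℕ} {M : Type} [CommGroup M] (sgn : Fin β → Bool)
    (x : Fin β ⊕ (Fin h ⊕ Fin h) → M) (c : Fin β → M) :
    FreeGroup.lift (Sum.elim x c) (mk (orWord β h sgn)) = ∏ j, sg (c j) (sgn j) := by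
  rw [orWord, sideWord, ← mul_mk, _root_.map_mul, hom_flatMap, hom_flatMap]
  simp only [lift_bd, lift_com]
  rw [Fin.prod_univ_def]
  simp

theorem lift_noWord {β k : ℕ} {M : Type} [CommGroup M]
    (x : Fin β ⊕ Fin k → M) (c : Fin β → M) :
    FreeGroup.lift (Sum.elim x c) (mk (noWord β k)) =
      (∏ j, c j) * ∏ i, (x (.inr i) * x (.inr i)) := by
  rw [noWord, sideWord, ← mul_mk, _root_.map_mul, hom_flatMap, hom_flatMap]
  simp only [lift_bd, lift_sq]
  rw [Fin.prod_univ_def, Fin.prod_univ_def]
  rfl

/-- all assignments are solutions over `ZMod 2` with trivial boundary values -/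
theorem card_all {L : Type} [Fintype L] {β : ℕ} (W : List (Ltr L (Fin β)))
    (h : ∀ x : L → Multiplicative (ZMod 2),
      FreeGroup.lift (Sum.elim x fun _ : Fin β => (1 : Multiplicative (ZMod 2))) (mk W) = 1) :
    Nat.card (QSol W (M := Multiplicative (ZMod 2)) fun _ => 1) = 2 ^ Fintype.card L := by
  have e : QSol W (M := Multiplicative (ZMod 2)) (fun _ => 1) ≃ (L → Multiplicative (ZMod 2)) :=
    { toFun := fun x => x.1
      invFun := fun x => ⟨x, by rw [h x, inv_one]⟩
      left_inv := fun x => rfl
      right_inv := fun x => rfl }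
  rw [Nat.card_congr e, Nat.card_fun]
  simp [Nat.card_eq_fintype_card]

theorem card_or (β h : ℕ) (sgn : Fin β → Bool) :
    Nat.card (QSol (orWord β h sgn) (M := Multiplicative (ZMod 2)) fun _ => 1) =
      2 ^ (β + (h + h)) := by
  rw [card_all]
  · simp
  · intro x
    rw [lift_orWord]
    simp [sg]

theorem card_no (β k : ℕ) :
    Nat.card (QSol (noWord β k) (M := Multiplicative (ZMod 2)) fun _ => 1) = 2 ^ (β + k) := by
  rw [card_all]
  · simp
  · intro x
    rw [lift_noWord]
    have : ∀ y : Multiplicative (ZMod 2), y * y = 1 := by decide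
    simp [this]

/-- the generator -/
def g3 : Multiplicative (ZMod 3) := Multiplicative.ofAdd 1

theorem g3_ne : sg g3 true ≠ sg g3 false := by decide

theorem prod_single {β : ℕ} (j : Fin β) (sgn : Fin β → Bool) :
    ∏ i, sg (if i = j then g3 else 1) (sgn i) = sg g3 (sgn j) := by
  rw [Finset.prod_eq_single j]
  · rw [if_pos rfl]
  · intro i _ hi
    rw [if_neg hi]
    simp [sg]
  · intro h
    exact absurd (Finset.mem_univ j) h

theorem or_or (β h h' : ℕ) (sgn sgn' : Fin β → Bool)
    (H : ∀ (M : Type) [Group M] (c : Option (Fin β) → M),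
      Nonempty (QSol (orWord β h sgn) c ≃ QSol (orWord β h' sgn') c)) : h = h' ∧ sgn = sgn' := by
  constructor
  · obtain ⟨e⟩ := H (Multiplicative (ZMod 2)) (fun _ => 1)
    have h1 := Nat.card_congr e
    rw [card_or, card_or] at h1
    have h2 := Nat.pow_right_injective (le_refl 2) h1
    omega
  · funext j
    obtain ⟨e⟩ := H (Multiplicative (ZMod 3))
      (fun o => match o with
        | none => (sg g3 (sgn j))⁻¹
        | some i => if i = j then g3 else 1)
    have h1 : QSol (orWord β h sgn) (M := Multiplicative (ZMod 3))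
      (fun o => match o with
        | none => (sg g3 (sgn j))⁻¹
        | some i => if i = j then g3 else 1) := ⟨fun _ => 1, by
          rw [lift_orWord]
          simp only [prod_single]
          exact (_root_.inv_inv _).symm⟩
    have h2 := (e h1).2
    rw [lift_orWord] at h2
    simp only [prod_single] at h2
    replace h2 : sg g3 (sgn' j) = sg g3 (sgn j) := h2.trans (_root_.inv_inv _)
    by_contra hne
    revert h2
    revert hne
    generalize sgn j = s
    generalize sgn' j = s'
    cases s <;> cases s' <;> decide

theorem no_no (β k k' : ℕ) (H : ∀ (M : Type) [Group M] (c : Option (Fin β) → M),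
      Nonempty (QSol (noWord β k) c ≃ QSol (noWord β k') c)) : k = k' := by
  obtain ⟨e⟩ := H (Multiplicative (ZMod 2)) (fun _ => 1)
  have h1 := Nat.card_congr e
  rw [card_no, card_no] at h1
  have h2 := Nat.pow_right_injective (le_refl 2) h1
  omega

theorem or_no (β h k : ℕ) (sgn : Fin β → Bool) (hk : 1 ≤ k) :
    ¬ ∀ (M : Type) [Group M] (c : Option (Fin β) → M),
      Nonempty (QSol (orWord β h sgn) c ≃ QSol (noWord β k) c) := by
  intro H
  obtain ⟨e⟩ := H (Multiplicative (ZMod 3))
      (fun o => match o with
        | none => g3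
        | some _ => 1)
  have i₀ : Fin k := ⟨0, hk⟩
  have h1 : QSol (noWord β k) (M := Multiplicative (ZMod 3))
      (fun o => match o with
        | none => g3
        | some _ => 1) := ⟨fun y => if y = .inr i₀ then g3 else 1, by
          rw [lift_noWord]
          simp only [Finset.prod_const_one, one_mul]
          rw [Finset.prod_eq_single i₀]
          · rw [if_pos rfl]
            decide
          · intro i _ hi
            rw [if_neg (by simpa using hi), mul_one]
          · intro h
            exact absurd (Finset.mem_univ i₀) h⟩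
  have h2 := (e.symm h1).2
  rw [lift_orWord] at h2
  revert h2
  simp only [sg, inv_one, ite_self, Finset.prod_const_one]
  decide

end TYPE

theorem typeS : TypeStatement :=
  ⟨TYPE.or_or, TYPE.no_no, TYPE.or_no⟩

end Pool.Agent.Helper35_WH
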